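import Pool.Agent.Y142.ZI.Stm

/-!
Roots of unity near one; companion matrices.
-/

set_option autoImplicit false

open Polynomial

namespace Pool.Agent.Y547.ZI

open Pool.Agent.Y142.ZI

section comp

theorem t2 : S_COMP := by
  intro F _ m p hp hm
  let pb := AdjoinRoot.powerBasis' hp
  have hdim : pb.dim = m := by
    rw [AdjoinRoot.powerBasis'_dim hp, hm]
  have h1 : (Algebra.leftMulMatrix pb.basis pb.gen).charpoly = p := by
    rw [charpoly_leftMulMatrix]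
    show minpoly F (AdjoinRoot.powerBasis' hp).gen = p
    rw [AdjoinRoot.powerBasis'_gen, AdjoinRoot.minpoly_root hp.ne_zero, hp.leadingCoeff, inv_one,
      C_1, mul_one]
  refine ⟨Matrix.reindex (finCongr hdim) (finCongr hdim) (Algebra.leftMulMatrix pb.basis pb.gen),
    ?_⟩
  rw [Matrix.charpoly_reindex]
  exact h1

end comp

section nice

variable {ℓ : ℕ} [hℓ : Fact ℓ.Prime]

lemma one_div_le_norm (i : ℕ) (hi : 0 < i) : (1 : ℝ) / i ≤ ‖(i : ℚ_[ℓ])‖ := by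
  have h0 : (i : ℚ_[ℓ]) ≠ 0 := by exact_mod_cast hi.ne'
  rw [Padic.norm_eq_zpow_neg_valuation h0, Padic.valuation_natCast, zpow_neg, zpow_natCast,
    one_div]
  have h1 : (ℓ ^ padicValNat ℓ i : ℕ) ≤ i := Nat.le_of_dvd hi pow_padicValNat_dvd
  have h2 : (0 : ℝ) < (ℓ : ℝ) ^ padicValNat ℓ i := by
    have := hℓ.out.pos
    positivity
  refine inv_anti₀ h2 ?_
  exact_mod_cast h1

lemma norm_nat (i : ℕ) : ‖((i : ℕ) : AlgebraicClosure ℚ_[ℓ])‖ = ‖(i : ℚ_[ℓ])‖ := by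
  have h := PadicAlgCl.norm_extends ℓ (i : ℚ_[ℓ])
  rw [← h]
  congr 1

lemma root_one (h2 : ℓ ≠ 2) (w : AlgebraicClosure ℚ_[ℓ]) (hw : ‖w‖ ≤ (ℓ : ℝ)⁻¹) (k : ℕ)
    (hk : 0 < k) (h : (1 + w) ^ k = 1) : w = 0 := by
  by_contra hw0
  have hwpos : 0 < ‖w‖ := norm_pos_iff.mpr hw0
  have hl3 : 3 ≤ ℓ := by
    have := hℓ.out.two_le
    omega
  have hkn : (0 : ℝ) < ‖((k : ℕ) : AlgebraicClosure ℚ_[ℓ])‖ := by
    rw [norm_nat]
    exact lt_of_lt_of_le (by positivity) (one_div_le_norm k hk)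
  -- the binomial expansion
  have h3 : (k : AlgebraicClosure ℚ_[ℓ]) * w =
      -∑ i ∈ Finset.Icc 2 k, w ^ i * (k.choose i : AlgebraicClosure ℚ_[ℓ]) := by
    rw [add_comm, add_pow] at h
    simp only [one_pow, mul_one] at h
    have hsplit : Finset.range (k + 1) = insert 0 (insert 1 (Finset.Icc 2 k)) := by
      ext j
      simp only [Finset.mem_range, Finset.mem_insert, Finset.mem_Icc]
      omega
    rw [hsplit, Finset.sum_insert (by simp), Finset.sum_insert (by simp)] at h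
    simp only [pow_zero, Nat.choose_zero_right, Nat.cast_one, mul_one, pow_one,
      Nat.choose_one_right] at h
    linear_combination h
  have hterm : ∀ i ∈ Finset.Icc 2 k,
      ‖w ^ i * (k.choose i : AlgebraicClosure ℚ_[ℓ])‖ <
        ‖(k : AlgebraicClosure ℚ_[ℓ]) * w‖ := by
    intro i hi
    rw [Finset.mem_Icc] at hi
    obtain ⟨j, rfl⟩ : ∃ j, i = j + 2 := ⟨i - 2, by omega⟩
    obtain ⟨n, rfl⟩ : ∃ n, k = n + 1 := ⟨k - 1, by omega⟩
    have h4 : (n + 1) * n.choose (j + 1) = (n + 1).choose (j + 2) * (j + 2) :=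
      Nat.add_one_mul_choose_eq n (j + 1)
    have h5 : ‖((n + 1 : ℕ) : AlgebraicClosure ℚ_[ℓ])‖ *
        ‖((n.choose (j + 1) : ℕ) : AlgebraicClosure ℚ_[ℓ])‖ =
        ‖(((n + 1).choose (j + 2) : ℕ) : AlgebraicClosure ℚ_[ℓ])‖ *
          ‖((j + 2 : ℕ) : AlgebraicClosure ℚ_[ℓ])‖ := by
      rw [← norm_mul, ← norm_mul, ← Nat.cast_mul, ← Nat.cast_mul, h4]
    have h6 : ‖((n.choose (j + 1) : ℕ) : AlgebraicClosure ℚ_[ℓ])‖ ≤ 1 := by
      rw [norm_nat]
      exact_mod_cast Padic.norm_int_le_one (n.choose (j + 1) : ℤ)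
    have h7 : (1 : ℝ) / ((j + 2 : ℕ) : ℝ) ≤ ‖((j + 2 : ℕ) : AlgebraicClosure ℚ_[ℓ])‖ := by
      rw [norm_nat]
      exact one_div_le_norm _ (by omega)
    have hj : ‖w‖ ^ (j + 1) < 1 / ((j + 2 : ℕ) : ℝ) := by
      have h8 : ‖w‖ ≤ 1 / 3 := by
        refine hw.trans ?_
        rw [one_div]
        refine inv_anti₀ (by norm_num) ?_
        exact_mod_cast hl3
      have h9 : ‖w‖ ^ (j + 1) ≤ (1 / 3) ^ (j + 1) := pow_le_pow_left₀ (norm_nonneg _) h8 _
      refine h9.trans_lt ?_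
      rw [one_div_pow]
      refine one_div_lt_one_div_of_lt (by positivity) ?_
      have h10 : ∀ j : ℕ, j + 2 < 3 ^ (j + 1) := by
        intro j
        induction j with
        | zero => norm_num
        | succ j ih => rw [pow_succ]; omega
      exact_mod_cast h10 j
    have hpos : 0 < ‖((j + 2 : ℕ) : AlgebraicClosure ℚ_[ℓ])‖ :=
      lt_of_lt_of_le (by positivity) h7
    rw [norm_mul, norm_mul, norm_pow]
    have h11 : ‖w‖ ^ (j + 1) < ‖((j + 2 : ℕ) : AlgebraicClosure ℚ_[ℓ])‖ := hj.trans_le h7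
    have h12 : ‖(((n + 1).choose (j + 2) : ℕ) : AlgebraicClosure ℚ_[ℓ])‖ ≤
        ‖((n + 1 : ℕ) : AlgebraicClosure ℚ_[ℓ])‖ / ‖((j + 2 : ℕ) : AlgebraicClosure ℚ_[ℓ])‖ := by
      rw [le_div_iff₀ hpos, ← h5]
      exact mul_le_of_le_one_right (norm_nonneg _) h6
    calc ‖w‖ ^ (j + 2) * ‖(((n + 1).choose (j + 2) : ℕ) : AlgebraicClosure ℚ_[ℓ])‖
        ≤ ‖w‖ ^ (j + 2) * (‖((n + 1 : ℕ) : AlgebraicClosure ℚ_[ℓ])‖ /
            ‖((j + 2 : ℕ) : AlgebraicClosure ℚ_[ℓ])‖) :=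
          mul_le_mul_of_nonneg_left h12 (by positivity)
      _ = (‖((n + 1 : ℕ) : AlgebraicClosure ℚ_[ℓ])‖ * ‖w‖) *
            (‖w‖ ^ (j + 1) / ‖((j + 2 : ℕ) : AlgebraicClosure ℚ_[ℓ])‖) := by
          rw [pow_succ]; ring
      _ < (‖((n + 1 : ℕ) : AlgebraicClosure ℚ_[ℓ])‖ * ‖w‖) * 1 := by
          refine mul_lt_mul_of_pos_left ?_ (by positivity)
          rw [div_lt_one hpos]
          exact h11
      _ = _ := mul_one _
  rcases Finset.eq_empty_or_nonempty (Finset.Icc 2 k) with he | hne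
  · rw [he, Finset.sum_empty, neg_zero] at h3
    have h4 := congrArg norm h3
    rw [norm_mul, norm_zero] at h4
    have : 0 < ‖(k : AlgebraicClosure ℚ_[ℓ])‖ * ‖w‖ := by positivity
    linarith
  · obtain ⟨i, hi, hle⟩ := IsUltrametricDist.exists_norm_finsetSum_le_of_nonempty hne
      (fun i => w ^ i * (k.choose i : AlgebraicClosure ℚ_[ℓ]))
    have h4 := congrArg norm h3
    rw [norm_neg] at h4
    have h5 := hterm i hi
    rw [h4] at h5
    exact absurd hle (not_le.mpr h5)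

theorem t1 : S_NICE := by
  intro ℓ hℓ h2 x y k hk hx hy hxy
  have hl : (ℓ : ℝ)⁻¹ < 1 := by
    refine inv_lt_one_of_one_lt₀ ?_
    exact_mod_cast hℓ.out.one_lt
  have hy1 : ‖y‖ = 1 := by
    have h1 : y = 1 + (y - 1) := by ring
    rw [h1]
    have h3 : ‖(1 : AlgebraicClosure ℚ_[ℓ])‖ ≠ ‖y - 1‖ := by
      rw [norm_one]
      exact (lt_of_le_of_lt hy hl).ne'
    rw [IsUltrametricDist.norm_add_eq_max_of_norm_ne_norm h3, norm_one, max_eq_left]
    exact (lt_of_le_of_lt hy hl).le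
  have hy0 : y ≠ 0 := by
    rintro rfl
    rw [norm_zero] at hy1
    exact zero_ne_one hy1
  have hxy' : ‖x - y‖ ≤ (ℓ : ℝ)⁻¹ := by
    have h1 : x - y = (x - 1) + -(y - 1) := by ring
    rw [h1]
    refine (IsUltrametricDist.norm_add_le_max _ _).trans (max_le hx ?_)
    rw [norm_neg]; exact hy
  have h3 : (1 + (x - y) / y) ^ k = 1 := by
    have h4 : 1 + (x - y) / y = x / y := by field_simp; ring
    rw [h4, div_pow, hxy, div_self (pow_ne_zero _ hy0)]
  have h5 := root_one h2 ((x - y) / y) (by rw [norm_div, hy1, div_one]; exact hxy') k hk h3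
  rw [div_eq_zero_iff] at h5
  rcases h5 with h5 | h5
  · exact sub_eq_zero.mp h5
  · exact absurd h5 hy0

end nice

end Pool.Agent.Y547.ZI
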